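import Pool.Agent.MP_151d89_pr.H67.Fin

/-!
The Gibbs property in integral form, and convergence of finite volume averages under tail
triviality.
-/

set_option autoImplicit false
open MeasureTheory Filter Finset Topology

namespace Pool.Agent.MP_151d89_pr.H67
open Pool.Agent.MP_151d89_pr.H82 Pool.Agent.MP_151d89_pr.H33
open Classical

theorem meas_hom : MeasurableSet {f : Conf | Hom f} := by
  unfold Hom
  refine measurableSet_setOf.2 (Measurable.forall fun x => Measurable.forall fun y =>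
    Measurable.imp measurable_const ?_)
  exact measurableSet_setOf.1 (measurableSet_eq_fun (by fun_prop) measurable_const)

/-- extension by zero -/
noncomputable def ext0 (Λ : Finset (ℤ × ℤ)) (b : Λ → ℤ) : Conf :=
  fun x => if h : x ∈ Λ then b ⟨x, h⟩ else 0

theorem sum_tsum (Λ : Finset (ℤ × ℤ)) (φ : Conf → ℝ) (g : Conf) : ∑ a ∈ FS Λ g, φ a =
    ∑' b : Λ → ℤ, if Hom (rep Λ (ext0 Λ b) g) then φ (rep Λ (ext0 Λ b) g) else 0 := by
  have e : ∀ a ∈ FS Λ g, rep Λ (ext0 Λ fun x => a x) g = a := fun a ha => funext fun x => by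
    unfold rep ext0
    split_ifs with hx
    · rfl
    · exact ((mem_FS.1 ha).2 x hx).symm
  rw [tsum_eq_sum (s := (FS Λ g).image fun (a : Conf) (x : Λ) => a x), sum_image]
  · exact sum_congr rfl fun a ha => by rw [e a ha, if_pos (mem_FS.1 ha).1]
  · intro a ha b hb h
    rw [← e a ha, ← e b hb]
    exact congrArg (fun c => rep Λ (ext0 Λ c) g) h
  · intro b hb
    refine if_neg fun hh => hb (mem_image.2 ⟨_, mem_FS.2 ⟨hh, fun x hx => ?_⟩, ?_⟩)
    · simp [rep, hx]
    · funext x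
      simp [rep, ext0]

theorem meas_sum (Λ : Finset (ℤ × ℤ)) {φ : Conf → ℝ} (hφ : Measurable φ) :
    Measurable fun g => ∑ a ∈ FS Λ g, φ a := by
  simp only [sum_tsum]
  exact Measurable.tsum fun b => Measurable.ite (meas_rep Λ _ meas_hom) (hφ.comp (meas_rep Λ _))
    measurable_const

theorem meas_av (Λ : Finset (ℤ × ℤ)) {φ : Conf → ℝ} (hφ : Measurable φ) :
    Measurable (av Λ φ) := by
  have h := meas_sum Λ (φ := fun _ => 1) measurable_const
  simp only [sum_const, nsmul_eq_mul, mul_one] at h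
  exact (meas_sum Λ hφ).div h

theorem intg {μ : Measure Conf} [IsFiniteMeasure μ] {φ : Conf → ℝ} (hφ : Measurable φ) {B : ℝ}
    (h : ∀ a, |φ a| ≤ B) : Integrable φ μ :=
  Integrable.of_bound hφ.aestronglyMeasurable B (ae_of_all _ h)

theorem av_local {Λ Δ : Finset (ℤ × ℤ)}
    (hΔ : ∀ x ∈ Λ, x ∈ Δ ∧ ∀ y : ℤ × ℤ, |x.1 - y.1| + |x.2 - y.2| = 1 → y ∈ Δ)
    (φ : Conf → ℝ) {g f : Conf} (hg : Hom g) (hf : Hom f) (h : f ∈ cyl (Δ \ Λ) g) :
    av Λ φ f = (∑ b ∈ FS Λ g, φ (rep Λ b f)) / (FS Λ g).card := by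
  have key : ∀ {g f : Conf}, Hom f → f ∈ cyl (Δ \ Λ) g → ∀ b ∈ FS Λ g, rep Λ b f ∈ FS Λ f := by
    intro g f hf h b hb
    refine mem_FS.2 ⟨rep_hom (a := rep Λ f g) (mem_FS.1 hb).1 hf (fun x hx => ?_) hΔ
      fun x hx => ?_, fun x hx => by simp [rep, hx]⟩
    · simp [rep, hx, (mem_FS.1 hb).2 x hx]
    · unfold rep
      split_ifs with hl
      · rfl
      · exact h x (mem_sdiff.2 ⟨hx, hl⟩)
  have hi : Set.InjOn (fun b => rep Λ b f) (FS Λ g) := fun a ha b hb e => funext fun x => by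
    by_cases hx : x ∈ Λ
    · simpa [rep, hx] using congrFun e x
    · rw [(mem_FS.1 ha).2 x hx, (mem_FS.1 hb).2 x hx]
  have e : FS Λ f = (FS Λ g).image fun b => rep Λ b f := by
    ext a
    rw [mem_image]
    constructor
    · intro ha
      refine ⟨rep Λ a g, key hg (fun x hx => (h x hx).symm) a ha, funext fun x => ?_⟩
      by_cases hx : x ∈ Λ
      · simp [rep, hx]
      · simp [rep, hx, (mem_FS.1 ha).2 x hx]
    · rintro ⟨b, hb, rfl⟩
      exact key hf h b hb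
  rw [av, e, card_image_of_injOn hi, sum_image hi]

theorem int_piece {μ : Measure Conf} (hμ : Gibbs μ) {Λ Δ : Finset (ℤ × ℤ)}
    (hΔ : ∀ x ∈ Λ, x ∈ Δ ∧ ∀ y : ℤ × ℤ, |x.1 - y.1| + |x.2 - y.2| = 1 → y ∈ Δ)
    {φ : Conf → ℝ} (hφ : Measurable φ) {B : ℝ} (hB : ∀ a, |φ a| ≤ B) {g : Conf} (hg : Hom g) :
    ∫ f in cyl (Δ \ Λ) g, av Λ φ f ∂μ = ∫ f in cyl (Δ \ Λ) g, φ f ∂μ := by
  have := hμ.1
  have hsub : ∀ a ∈ FS Λ g, cyl Δ a ⊆ cyl (Δ \ Λ) g := fun a ha f hf x hx => by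
    have hx' := Finset.mem_sdiff.1 hx
    rw [hf x hx'.1, (mem_FS.1 ha).2 x hx'.2]
  have e : (cyl (Δ \ Λ) g : Set Conf) =ᵐ[μ] (⋃ a ∈ FS Λ g, cyl Δ a : Set Conf) := by
    filter_upwards [hμ.2.1] with f hf
    refine propext ⟨fun hf' => ?_, fun hf' => ?_⟩
    · have h1 : f ∈ cyl Δ (rep Λ f g) := fun x hx => by
        unfold rep
        split_ifs with hl
        · rfl
        · exact hf' x (mem_sdiff.2 ⟨hx, hl⟩)
      have h2 : Hom (rep Λ f g) := by
        refine rep_hom (a := rep Λ g f) hf hg (fun x hx => by simp [rep, hx]) hΔ fun x hx => ?_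
        unfold rep
        split_ifs with hl
        · rfl
        · exact (hf' x (mem_sdiff.2 ⟨hx, hl⟩)).symm
      exact Set.mem_biUnion (mem_coe.2 (mem_FS.2 ⟨h2, fun x hx => by simp [rep, hx]⟩)) h1
    · obtain ⟨a, ha, h1⟩ := Set.mem_iUnion₂.1 hf'
      exact hsub a ha h1
  have hd : (FS Λ g : Set Conf).Pairwise (Function.onFun Disjoint fun a => cyl Δ a) := by
    intro a ha b hb hab
    refine Set.disjoint_left.2 fun f h h' => hab (funext fun x => ?_)
    by_cases hx : x ∈ Λ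
    · rw [← h x (hΔ x hx).1, ← h' x (hΔ x hx).1]
    · rw [(mem_FS.1 ha).2 x hx, (mem_FS.1 hb).2 x hx]
  rw [setIntegral_congr_set e, setIntegral_congr_set e,
    integral_biUnion_finset _ (fun a _ => meas_cyl _ _) hd
      (fun a _ => (intg (meas_av Λ hφ) (av_abs hB)).integrableOn),
    integral_biUnion_finset _ (fun a _ => meas_cyl _ _) hd
      (fun a _ => (intg hφ hB).integrableOn)]
  have h1 : ∀ a ∈ FS Λ g, ∫ f in cyl Δ a, av Λ φ f ∂μ =
      (∑ b ∈ FS Λ g, ∫ f in cyl Δ b, φ f ∂μ) / (FS Λ g).card := by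
    intro a ha
    have e1 : ∀ b ∈ FS Λ g, ∫ f in cyl Δ b, φ f ∂μ = ∫ f in cyl Δ a, φ (rep Λ b f) ∂μ := by
      intro b hb
      rw [← swap hμ (mem_FS.1 ha).1 (mem_FS.1 hb).1
        (fun x hx => ((mem_FS.1 ha).2 x hx).trans ((mem_FS.1 hb).2 x hx).symm) hΔ,
        integral_map (meas_rep Λ b).aemeasurable hφ.aestronglyMeasurable]
    rw [sum_congr rfl e1, ← integral_finsetSum (f := fun b f => φ (rep Λ b f)) _ fun b _ =>
      intg (hφ.comp (meas_rep Λ b)) fun f => hB _, ← integral_div]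
    refine setIntegral_congr_ae (meas_cyl _ _) ?_
    filter_upwards [hμ.2.1] with f hf hf'
    exact av_local hΔ φ hg hf (hsub a ha hf')
  rw [sum_congr rfl h1, sum_const, nsmul_eq_mul, mul_div_cancel₀ _ (card_pos Λ hg).ne']

/-- the Gibbs property in integral form -/
theorem int_av {μ : Measure Conf} (hμ : Gibbs μ) (Λ : Finset (ℤ × ℤ)) {φ : Conf → ℝ}
    (hφ : Measurable φ) {B : ℝ} (hB : ∀ a, |φ a| ≤ B) : ∫ f, av Λ φ f ∂μ = ∫ f, φ f ∂μ := by
  have := hμ.1
  set Δ := Λ.biUnion fun x => box x 1 with hΔ'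
  have hΔ : ∀ x ∈ Λ, x ∈ Δ ∧ ∀ y : ℤ × ℤ, |x.1 - y.1| + |x.2 - y.2| = 1 → y ∈ Δ := by
    intro x hx
    refine ⟨mem_biUnion.2 ⟨x, hx, mem_box.2 (by omega)⟩, fun y hy =>
      mem_biUnion.2 ⟨x, hx, mem_box.2 ?_⟩⟩
    rcases abs_cases (x.1 - y.1) with ⟨e1, _⟩ | ⟨e1, _⟩ <;>
    rcases abs_cases (x.2 - y.2) with ⟨e2, _⟩ | ⟨e2, _⟩ <;> omega
  let π : Conf → (↥(Δ \ Λ) → ℤ) := fun f x => f x
  have hπ : Measurable π := measurable_pi_lambda _ fun x => measurable_pi_apply _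
  have hm : ∀ p, MeasurableSet (π ⁻¹' {p}) := fun p => hπ (measurableSet_singleton p)
  have hd : Pairwise (Function.onFun Disjoint fun p => π ⁻¹' {p}) := fun p q hpq =>
    Set.disjoint_left.2 fun f h h' => hpq (h.symm.trans h')
  have hu : ⋃ p, π ⁻¹' {p} = Set.univ := Set.eq_univ_of_forall fun f => Set.mem_iUnion.2 ⟨π f, rfl⟩
  have h1 := hasSum_integral_iUnion hm hd (intg (μ := μ) (meas_av Λ hφ) (av_abs hB)).integrableOn
  have h2 := hasSum_integral_iUnion hm hd (intg (μ := μ) hφ hB).integrableOn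
  rw [hu, Measure.restrict_univ] at h1 h2
  refine h1.unique ?_
  convert h2 using 2 with p
  by_cases h : ∃ g, Hom g ∧ π g = p
  · obtain ⟨g, hg, rfl⟩ := h
    have e : π ⁻¹' {π g} = cyl (Δ \ Λ) g := by
      ext f
      exact ⟨fun h x hx => congrFun h ⟨x, hx⟩, fun h => funext fun x => h x x.2⟩
    rw [e]
    exact int_piece hμ hΔ hφ hB hg
  · have h0 : μ (π ⁻¹' {p}) = 0 := by
      refine measure_eq_zero_iff_ae_notMem.2 ?_
      filter_upwards [hμ.2.1] with f hf hf'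
      exact h ⟨f, hf, hf'⟩
    rw [Measure.restrict_eq_zero.2 h0, integral_zero_measure, integral_zero_measure]

theorem abs_mul_le {a b A B : ℝ} (ha : |a| ≤ A) (hb : |b| ≤ B) : |a * b| ≤ A * B := by
  rw [abs_mul]
  exact mul_le_mul ha hb (abs_nonneg _) ((abs_nonneg _).trans ha)

theorem int_av_mul {μ : Measure Conf} (hμ : Gibbs μ) (Λ : Finset (ℤ × ℤ)) {φ ψ : Conf → ℝ}
    (hφ : Measurable φ) (hψ : Measurable ψ) {A B : ℝ} (hA : ∀ a, |φ a| ≤ A) (hB : ∀ a, |ψ a| ≤ B) :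
    ∫ f, av Λ φ f * ψ f ∂μ = ∫ f, av Λ φ f * av Λ ψ f ∂μ := by
  rw [← int_av hμ Λ (φ := fun f => av Λ φ f * ψ f) ((meas_av Λ hφ).mul hψ)
    fun a => abs_mul_le (av_abs hA a) (hB a)]
  refine integral_congr_ae (ae_of_all _ fun f => ?_)
  simp only
  rw [← av_smul]
  exact av_eq fun a ha => by rw [av_congr φ (mem_FS.1 ha).2]

theorem box_mono {n m : ℕ} (h : n ≤ m) : box 0 n ⊆ box 0 m := fun x hx => by
  rw [mem_box] at hx ⊢
  omega

/-- finite volume averages converge to the mean along a subsequence -/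
theorem av_tendsto {μ : Measure Conf} (hμ : Gibbs μ) (hT : Triv μ) {φ : Conf → ℝ}
    (hφ : Measurable φ) {B : ℝ} (hB : ∀ a, |φ a| ≤ B) : ∃ ns : ℕ → ℕ,
      ∀ᵐ f ∂μ, Tendsto (fun i => av (box 0 (ns i)) φ f) atTop (𝓝 (∫ f, φ f ∂μ)) := by
  have := hμ.1
  set a : ℕ → Conf → ℝ := fun n => av (box 0 n) φ with ha
  have am : ∀ n, Measurable (a n) := fun n => meas_av _ hφ
  have ab : ∀ n f, |a n f| ≤ B := fun n => av_abs hB
  have ai : ∀ n m, Integrable (fun f => a n f * a m f) μ := fun n m =>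
    intg ((am n).mul (am m)) fun f => abs_mul_le (ab n f) (ab m f)
  set q : ℕ → ℝ := fun n => ∫ f, a n f * a n f ∂μ with hq
  have h1 : ∀ n m, n ≤ m → ∫ f, (a m f - a n f) ^ 2 ∂μ = q n - q m := by
    intro n m h
    have e1 : ∫ f, a m f * a n f ∂μ = q m := by
      rw [int_av_mul hμ _ hφ (am n) hB (ab n)]
      simp only [ha, av_tower (box_mono h), hq]
    have e2 : ∀ f, (a m f - a n f) ^ 2 =
        (a n f * a n f + a m f * a m f) - 2 * (a m f * a n f) := fun f => by ring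
    simp only [e2]
    rw [integral_sub (f := fun f => a n f * a n f + a m f * a m f) ((ai n n).add (ai m m))
      ((ai m n).const_mul 2), integral_add (ai n n) (ai m m), integral_const_mul, e1]
    ring
  have hanti : Antitone q := fun n m h => by
    have := integral_nonneg (μ := μ) (f := fun f => (a m f - a n f) ^ 2) fun f => sq_nonneg _
    rw [h1 n m h] at this
    linarith
  have hbd : BddBelow (Set.range q) :=
    ⟨0, by rintro _ ⟨n, rfl⟩; exact integral_nonneg fun f => mul_self_nonneg _⟩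
  have hm : ∀ n, MemLp (a n) 2 μ := fun n =>
    MemLp.of_bound (am n).aestronglyMeasurable B (ae_of_all _ (ab n))
  have hc : CauchySeq fun n => (hm n).toLp (a n) := by
    refine Metric.cauchySeq_iff'.2 fun ε hε => ?_
    obtain ⟨N, hN⟩ := exists_lt_of_ciInf_lt (f := q) (lt_add_of_pos_right _ (sq_pos_of_pos hε))
    refine ⟨N, fun n hn => ?_⟩
    rw [dist_eq_norm]
    refine lt_of_pow_lt_pow_left₀ 2 hε.le ?_
    rw [← real_inner_self_eq_norm_sq, L2.inner_def]
    have e : ∫ f, inner ℝ (((hm n).toLp (a n) - (hm N).toLp (a N)) f)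
        (((hm n).toLp (a n) - (hm N).toLp (a N)) f) ∂μ = ∫ f, (a n f - a N f) ^ 2 ∂μ := by
      refine integral_congr_ae ?_
      filter_upwards [Lp.coeFn_sub ((hm n).toLp (a n)) ((hm N).toLp (a N)), (hm n).coeFn_toLp,
        (hm N).coeFn_toLp] with f e1 e2 e3
      rw [e1, Pi.sub_apply, e2, e3, real_inner_self_eq_norm_sq, Real.norm_eq_abs, sq_abs]
    rw [e, h1 N n hn]
    linarith [ciInf_le hbd n]
  obtain ⟨G, hG⟩ := cauchySeq_tendsto_of_complete hc
  obtain ⟨ns, hns, hae⟩ := (tendstoInMeasure_of_tendsto_Lp hG).exists_seq_tendsto_ae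
  set L : Conf → ℝ := fun f => limsup (fun i => a (ns i) f) atTop with hL
  have hL1 : ∀ᵐ f ∂μ, Tendsto (fun i => a (ns i) f) atTop (𝓝 (L f)) := by
    filter_upwards [hae, ae_all_iff.2 fun n => (hm n).coeFn_toLp] with f e1 e2
    simp only [e2] at e1
    simp only [hL]
    rwa [e1.limsup_eq]
  have hLm : Measurable L := Measurable.limsup fun i => am _
  have hLi : ∀ Λ b f, L (rep Λ b f) = L f := by
    intro Λ b f
    refine limsup_congr ?_
    have h2 : ∀ᶠ i in atTop, ∀ x ∈ Λ, x ∈ box 0 (ns i) := by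
      refine (eventually_all_finset Λ).2 fun x _ => ?_
      filter_upwards [hns.tendsto_atTop.eventually_ge_atTop (x.1.natAbs + x.2.natAbs)] with i hi
      rw [mem_box]
      simp only [Prod.fst_zero, Prod.snd_zero]
      omega
    filter_upwards [h2] with i hi
    exact av_congr φ fun x hx => if_neg fun h => hx (hi x h)
  obtain ⟨c, hc'⟩ := exists_eventuallyEq_const_of_forall_separating (l := ae μ) (f := L)
    MeasurableSet fun U hU => by
      by_cases h0 : μ (L ⁻¹' U) = 0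
      · exact Or.inr (measure_eq_zero_iff_ae_notMem.1 h0)
      · exact Or.inl (hT _ (hLm hU) (fun Λ b => by ext f; simp [hLi]) h0)
  have hL2 : ∀ᵐ f ∂μ, Tendsto (fun i => a (ns i) f) atTop (𝓝 c) := by
    filter_upwards [hL1, hc'] with f e1 e2
    rwa [e2] at e1
  have h3 := tendsto_integral_of_dominated_convergence (fun _ => B)
    (fun i => (am (ns i)).aestronglyMeasurable) (integrable_const B)
    (fun i => ae_of_all _ (ab (ns i))) hL2
  simp only [ha, int_av hμ _ hφ hB, integral_const, probReal_univ, one_smul] at h3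
  refine ⟨ns, ?_⟩
  rwa [tendsto_nhds_unique tendsto_const_nhds h3]

end Pool.Agent.MP_151d89_pr.H67
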