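import Pool.Agent.MP_151d89_pr.H67.FKG
import Pool.Agent.MP_151d89_pr.H5.Meas

set_option autoImplicit false
open MeasureTheory Filter Set

namespace Pool.Agent.MP_151d89_pr.H5
open Pool.Agent.MP_151d89_pr.H82 Pool.Agent.MP_151d89_pr.H33

theorem cheb_row : ChebStmt := fun _ hμ hT x y _ ht => H67.cheb hμ hT x y ht

theorem modif_row : ModifStmt := fun _ hμ u r B =>
  le_trans (measure_mono fun _ hf => hf.2) (H67.modif hμ u r B)

theorem fkg_row : FkgStmt := by
  intro μ hμ hT y c Δ A B hA hB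
  have low : ∀ {C : Set (Set V)}, Up Δ C → IsLowerSet (chi y c ⁻¹' C) := fun hC ω ω' h hω =>
    hC _ _ (fun z _ hz => le_trans (add_le_add (h.1 z) (h.2 _)) hz) hω
  rw [nu_apply μ y c hA.meas, nu_apply μ y c hB.meas, nu_apply μ y c (hA.meas.inter hB.meas)]
  exact H67.fkgProdLow hμ hT hμ hT (meas_chi y c hA.meas) (meas_chi y c hB.meas) (low hA) (low hB)

end Pool.Agent.MP_151d89_pr.H5
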