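import Pool.Agent.MP_151d89_pr.H67.Gam

/-!
Positive association, the variance of increments, and finite modifications for tail trivial
Gibbs measures.
-/

set_option autoImplicit false
open MeasureTheory Filter Topology ProbabilityTheory

namespace Pool.Agent.MP_151d89_pr.H67
open Pool.Agent.MP_151d89_pr.H82 Pool.Agent.MP_151d89_pr.H33
open Classical

theorem tendsto_av_mul {μ : Measure Conf} (hμ : Gibbs μ) (hT : Triv μ) {φ ψ : Conf → ℝ}
    (hφ : Measurable φ) (hψ : Measurable ψ) {A B : ℝ} (hA : ∀ a, |φ a| ≤ A) (hB : ∀ a, |ψ a| ≤ B) :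
    ∃ ns : ℕ → ℕ, Tendsto (fun i => ∫ f, av (box 0 (ns i)) φ f * av (box 0 (ns i)) ψ f ∂μ) atTop
      (𝓝 ((∫ f, φ f ∂μ) * ∫ f, ψ f ∂μ)) := by
  have := hμ.1
  obtain ⟨ns, h⟩ := av_tendsto hμ hT hφ hA
  refine ⟨ns, ?_⟩
  simp only [← int_av_mul hμ _ hφ hψ hA hB]
  rw [← integral_const_mul]
  refine tendsto_integral_of_dominated_convergence (fun _ => A * B)
    (fun i => ((meas_av _ hφ).mul hψ).aestronglyMeasurable) (integrable_const _)
    (fun i => ae_of_all _ fun f => abs_mul_le (av_abs hA f) (hB f)) ?_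
  filter_upwards [h] with f hf
  exact hf.mul_const _

/-- positive association -/
theorem fkg {μ : Measure Conf} (hμ : Gibbs μ) (hT : Triv μ) {φ ψ : Conf → ℝ}
    (hφ : Measurable φ) (hψ : Measurable ψ) (mφ : Monotone φ) (mψ : Monotone ψ)
    (bφ : ∀ f, 0 ≤ φ f ∧ φ f ≤ 1) (bψ : ∀ f, 0 ≤ ψ f ∧ ψ f ≤ 1) :
    (∫ f, φ f ∂μ) * ∫ f, ψ f ∂μ ≤ ∫ f, φ f * ψ f ∂μ := by
  have := hμ.1
  have hA : ∀ f, |φ f| ≤ 1 := fun f => by rw [abs_of_nonneg (bφ f).1]; exact (bφ f).2
  have hB : ∀ f, |ψ f| ≤ 1 := fun f => by rw [abs_of_nonneg (bψ f).1]; exact (bψ f).2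
  have hC : ∀ f, |φ f * ψ f| ≤ 1 * 1 := fun f => abs_mul_le (hA f) (hB f)
  obtain ⟨ns, h⟩ := tendsto_av_mul hμ hT hφ hψ hA hB
  refine le_of_tendsto' h fun i => ?_
  rw [← int_av hμ (box 0 (ns i)) (φ := fun f => φ f * ψ f) (hφ.mul hψ) hC]
  refine integral_mono_ae (intg ((meas_av _ hφ).mul (meas_av _ hψ))
    fun f => abs_mul_le (av_abs hA f) (av_abs hB f)) (intg (meas_av _ (hφ.mul hψ)) (av_abs hC)) ?_
  filter_upwards [hμ.2.1] with f hf
  exact av_fkg _ hf mφ mψ (fun f => (bφ f).1) fun f => (bψ f).1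

theorem lower_of_upper {X : Type} [MeasurableSpace X] {μ : Measure X} [IsProbabilityMeasure μ]
    {A B : Set X} (hA : MeasurableSet A) (hB : MeasurableSet B)
    (h : μ Aᶜ * μ Bᶜ ≤ μ (Aᶜ ∩ Bᶜ)) : μ A * μ B ≤ μ (A ∩ B) := by
  have h1 : μ.real Aᶜ * μ.real Bᶜ ≤ μ.real (Aᶜ ∩ Bᶜ) := by
    simpa only [Measure.real, ENNReal.toReal_mul] using ENNReal.toReal_mono (measure_ne_top _ _) h
  rw [← Set.compl_union, probReal_compl_eq_one_sub hA, probReal_compl_eq_one_sub hB,
    probReal_compl_eq_one_sub (hA.union hB)] at h1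
  have h2 := measureReal_union_add_inter (μ := μ) (s := A) hB
  rw [← ENNReal.toReal_le_toReal (ENNReal.mul_ne_top (measure_ne_top _ _) (measure_ne_top _ _))
    (measure_ne_top _ _), ENNReal.toReal_mul]
  change μ.real A * μ.real B ≤ μ.real (A ∩ B)
  nlinarith

theorem ind_mono {A : Set Conf} (h : IsUpperSet A) :
    Monotone (A.indicator fun _ => (1 : ℝ)) := fun f g hfg => by
  by_cases hf : f ∈ A
  · simp [hf, h hfg hf]
  · rw [Set.indicator_of_notMem hf]
    exact Set.indicator_nonneg (fun _ _ => zero_le_one) g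

theorem ind_bd {X : Type} (A : Set X) (f : X) :
    0 ≤ A.indicator (fun _ => (1 : ℝ)) f ∧ A.indicator (fun _ => (1 : ℝ)) f ≤ 1 := by
  by_cases hf : f ∈ A <;> simp [hf]

/-- positive association for increasing events -/
theorem fkgUp {μ : Measure Conf} (hμ : Gibbs μ) (hT : Triv μ) {A B : Set Conf}
    (hA : MeasurableSet A) (hB : MeasurableSet B) (uA : IsUpperSet A) (uB : IsUpperSet B) :
    μ A * μ B ≤ μ (A ∩ B) := by
  have := hμ.1
  have h := fkg hμ hT (measurable_const.indicator hA) (measurable_const.indicator hB)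
    (ind_mono uA) (ind_mono uB) (ind_bd A) (ind_bd B)
  simp only [← Set.inter_indicator_mul, mul_one] at h
  rw [integral_indicator hA, integral_indicator hB, integral_indicator (hA.inter hB)] at h
  simp only [integral_const, smul_eq_mul, mul_one, measureReal_restrict_apply_univ] at h
  rw [← ENNReal.toReal_le_toReal (ENNReal.mul_ne_top (measure_ne_top _ _) (measure_ne_top _ _))
    (measure_ne_top _ _), ENNReal.toReal_mul]
  exact h

/-- positive association for decreasing events -/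
theorem fkgLow {μ : Measure Conf} (hμ : Gibbs μ) (hT : Triv μ) {A B : Set Conf}
    (hA : MeasurableSet A) (hB : MeasurableSet B) (uA : IsLowerSet A) (uB : IsLowerSet B) :
    μ A * μ B ≤ μ (A ∩ B) := by
  have := hμ.1
  exact lower_of_upper hA hB (fkgUp hμ hT hA.compl hB.compl uA.compl uB.compl)

/-- positive association for two independent fields, increasing events -/
theorem fkgProdUp {μ ν : Measure Conf} (hμ : Gibbs μ) (hT : Triv μ) (hν : Gibbs ν) (hT' : Triv ν)
    {A B : Set (Conf × Conf)} (hA : MeasurableSet A) (hB : MeasurableSet B) (uA : IsUpperSet A)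
    (uB : IsUpperSet B) : μ.prod ν A * μ.prod ν B ≤ μ.prod ν (A ∩ B) := by
  have := hμ.1
  have := hν.1
  have hm : ∀ {C : Set (Conf × Conf)}, MeasurableSet C →
      Measurable fun f => ν.real (Prod.mk f ⁻¹' C) := fun hC =>
    (measurable_measure_prodMk_left hC).ennreal_toReal
  have hb : ∀ (C : Set (Conf × Conf)) f, 0 ≤ ν.real (Prod.mk f ⁻¹' C) ∧
      ν.real (Prod.mk f ⁻¹' C) ≤ 1 := fun C f => ⟨measureReal_nonneg, measureReal_le_one⟩
  have hu : ∀ {C : Set (Conf × Conf)}, IsUpperSet C →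
      Monotone fun f => ν.real (Prod.mk f ⁻¹' C) := fun hC f g hfg =>
    measureReal_mono fun k hk => hC (Prod.mk_le_mk.2 ⟨hfg, le_rfl⟩) hk
  have he : ∀ {C : Set (Conf × Conf)}, MeasurableSet C →
      (μ.prod ν C).toReal = ∫ f, ν.real (Prod.mk f ⁻¹' C) ∂μ := fun hC => by
    rw [Measure.prod_apply hC, ← integral_toReal (measurable_measure_prodMk_left hC).aemeasurable
      (ae_of_all _ fun f => measure_lt_top _ _)]
    rfl
  rw [← ENNReal.toReal_le_toReal (ENNReal.mul_ne_top (measure_ne_top _ _) (measure_ne_top _ _))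
    (measure_ne_top _ _), ENNReal.toReal_mul, he hA, he hB, he (hA.inter hB)]
  refine (fkg hμ hT (hm hA) (hm hB) (hu uA) (hu uB) (hb A) (hb B)).trans
    (integral_mono (intg (B := 1 * 1) ((hm hA).mul (hm hB)) fun f => abs_mul_le
      (by rw [abs_of_nonneg (hb A f).1]; exact (hb A f).2)
      (by rw [abs_of_nonneg (hb B f).1]; exact (hb B f).2))
      (intg (B := 1) (hm (hA.inter hB)) fun f => by
        rw [abs_of_nonneg (hb _ f).1]; exact (hb _ f).2) fun f => ?_)
  have h := fkgUp hν hT' (measurable_prodMk_left (x := f) hA) (measurable_prodMk_left (x := f) hB)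
    (fun a b hab ha => uA (Prod.mk_le_mk.2 ⟨le_rfl, hab⟩) ha)
    (fun a b hab ha => uB (Prod.mk_le_mk.2 ⟨le_rfl, hab⟩) ha)
  have h' := ENNReal.toReal_mono (measure_ne_top _ _) h
  rw [ENNReal.toReal_mul] at h'
  exact h'

/-- positive association for two independent fields, decreasing events -/
theorem fkgProdLow {μ ν : Measure Conf} (hμ : Gibbs μ) (hT : Triv μ) (hν : Gibbs ν) (hT' : Triv ν)
    {A B : Set (Conf × Conf)} (hA : MeasurableSet A) (hB : MeasurableSet B) (uA : IsLowerSet A)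
    (uB : IsLowerSet B) : μ.prod ν A * μ.prod ν B ≤ μ.prod ν (A ∩ B) := by
  have := hμ.1
  have := hν.1
  exact lower_of_upper hA hB (fkgProdUp hμ hT hν hT' hA.compl hB.compl uA.compl uB.compl)

theorem inc_abs {f : Conf} (hf : Hom f) (x y : ℤ × ℤ) : |(f x : ℝ) - f y| ≤ dist1 x y := by
  have h1 := (lip hf x y).1
  have h2 := (lip hf y x).1
  rw [abs_sub_comm y.1, abs_sub_comm y.2] at h2
  have h3 : |f x - f y| ≤ dist1 x y := abs_le.2 ⟨by unfold dist1; omega, h1⟩
  exact_mod_cast h3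

theorem inc_memLp {μ : Measure Conf} (hμ : Gibbs μ) (x y : ℤ × ℤ) (p : ENNReal) :
    MemLp (fun f : Conf => (f x : ℝ) - f y) p μ := by
  have := hμ.1
  refine MemLp.of_bound (Measurable.aestronglyMeasurable (by fun_prop)) (dist1 x y) ?_
  filter_upwards [hμ.2.1] with f hf
  exact inc_abs hf x y

/-- the variance of an increment is at most twice the distance -/
theorem var_le {μ : Measure Conf} (hμ : Gibbs μ) (hT : Triv μ) (x y : ℤ × ℤ) :
    Var[fun f : Conf => (f x : ℝ) - f y; μ] ≤ 2 * dist1 x y := by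
  have := hμ.1
  set φ : Conf → ℝ := fun f => if Hom f then (f x : ℝ) - f y else 0 with hφ'
  have hφ : Measurable φ := Measurable.ite meas_hom (by fun_prop) measurable_const
  have hA : ∀ f, |φ f| ≤ dist1 x y := fun f => by
    simp only [hφ']
    split_ifs with h
    · exact inc_abs h x y
    · rw [abs_zero]
      exact_mod_cast add_nonneg (abs_nonneg _) (abs_nonneg _)
  have hC : ∀ f, |φ f * φ f| ≤ dist1 x y * dist1 x y := fun f => abs_mul_le (hA f) (hA f)
  have e : (fun f : Conf => (f x : ℝ) - f y) =ᵐ[μ] φ := by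
    filter_upwards [hμ.2.1] with f hf
    simp only [hφ', if_pos hf]
  obtain ⟨ns, h⟩ := tendsto_av_mul hμ hT hφ hφ hA hA
  have key : ∫ f, φ f * φ f ∂μ ≤ (∫ f, φ f ∂μ) * (∫ f, φ f ∂μ) + 2 * dist1 x y := by
    refine ge_of_tendsto' (h.add_const _) fun i => ?_
    have hi := intg (μ := μ) ((meas_av (box 0 (ns i)) hφ).mul (meas_av (box 0 (ns i)) hφ))
      fun f => abs_mul_le (av_abs hA f) (av_abs hA f)
    have e1 : ∫ f, (av (box 0 (ns i)) φ f * av (box 0 (ns i)) φ f + 2 * dist1 x y) ∂μ =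
        ∫ f, av (box 0 (ns i)) φ f * av (box 0 (ns i)) φ f ∂μ + 2 * dist1 x y := by
      rw [integral_add (f := fun f => av (box 0 (ns i)) φ f * av (box 0 (ns i)) φ f) hi
        (integrable_const _)]
      simp
    rw [← int_av hμ (box 0 (ns i)) (φ := fun f => φ f * φ f) (hφ.mul hφ) hC, ← e1]
    refine integral_mono_ae (intg (meas_av _ (hφ.mul hφ)) (av_abs hC))
      (hi.add (integrable_const _)) ?_
    filter_upwards [hμ.2.1] with f hf
    have h1 := av_var (box 0 (ns i)) hf x y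
    rw [av_eq (ψ := fun f => φ f * φ f) fun a ha => by
        simp only [hφ', if_pos (mem_FS.1 ha).1, sq],
      av_eq (φ := fun f : Conf => (f x : ℝ) - f y) (ψ := φ) fun a ha => by
        simp only [hφ', if_pos (mem_FS.1 ha).1], sq] at h1
    exact h1
  rw [variance_congr e, variance_eq_sub ((inc_memLp hμ x y 2).ae_eq e)]
  simp only [Pi.pow_apply, sq]
  linarith

/-- uniform concentration of increments -/
theorem cheb {μ : Measure Conf} (hμ : Gibbs μ) (hT : Triv μ) (x y : ℤ × ℤ) {t : ℝ} (ht : 0 < t) :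
    μ {f | t ≤ |((f x : ℝ) - f y) - ∫ g, ((g x : ℝ) - g y) ∂μ|} ≤
      ENNReal.ofReal (2 * (|x.1 - y.1| + |x.2 - y.2| : ℤ) / t ^ 2) := by
  have := hμ.1
  exact (meas_ge_le_variance_div_sq (inc_memLp hμ x y 2) ht).trans (ENNReal.ofReal_le_ofReal
    (div_le_div_of_nonneg_right (var_le hμ hT x y) (sq_nonneg _)))

theorem card_FS (u : ℤ × ℤ) (R : ℕ) (g : Conf) : (FS (box u R) g).card ≤ 2 ^ ((2 * R + 1) ^ 2) := by
  rw [← card_box u R, ← Finset.card_powerset]
  refine Finset.card_le_card_of_injOn (fun a => (box u R).filter fun x => a (x.1 - 1, x.2) < a x)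
    (fun a _ => Finset.mem_coe.2 (Finset.mem_powerset.2 (Finset.filter_subset _ _)))
    fun a ha b hb h => funext fun x => ?_
  have ha' := mem_FS.1 ha
  have hb' := mem_FS.1 hb
  by_cases hx : x ∈ box u R
  · refine det_bits ha'.1 hb'.1 u R (fun z _ hz => (ha'.2 z hz).trans (hb'.2 z hz).symm)
      (fun z hz => ?_) x ?_
    · have := Finset.ext_iff.1 h z
      simpa [hz] using this
    · rw [mem_box] at hx ⊢
      omega
  · exact (ha'.2 x hx).trans (hb'.2 x hx).symm

/-- finite modifications cost at most a constant factor -/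
theorem modif {μ : Measure Conf} (hμ : Gibbs μ) (u : ℤ × ℤ) (R : ℕ) (B : Set Conf) :
    μ {f | ∃ g ∈ B, Hom g ∧ ∀ x, x ∉ box u R → g x = f x} ≤ 2 ^ ((2 * R + 1) ^ 2) * μ B := by
  have := hμ.1
  have hB := measurableSet_toMeasurable μ B
  set φ := (toMeasurable μ B).indicator fun _ => (1 : ℝ) with hφ'
  have hφ : Measurable φ := measurable_const.indicator hB
  have hb : ∀ f, |φ f| ≤ 1 := fun f => by
    rw [abs_of_nonneg (ind_bd _ f).1]; exact (ind_bd _ f).2
  set C : ℝ := 2 ^ ((2 * R + 1) ^ 2) with hC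
  have hC0 : 0 < C := by positivity
  have h1 := mul_meas_ge_le_integral_of_nonneg (μ := μ) (f := av (box u R) φ)
    (ae_of_all _ fun f => div_nonneg (Finset.sum_nonneg fun a _ => (ind_bd _ a).1)
      (Nat.cast_nonneg _)) (intg (meas_av _ hφ) (av_abs hb)) C⁻¹
  rw [int_av hμ _ hφ hb, hφ', integral_indicator hB] at h1
  simp only [integral_const, smul_eq_mul, mul_one, measureReal_restrict_apply_univ] at h1
  rw [inv_mul_le_iff₀ hC0] at h1
  refine le_trans (measure_mono (t := {f | C⁻¹ ≤ av (box u R) φ f}) ?_) ?_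
  · rintro f ⟨g, hg, hg', h⟩
    have h2 : g ∈ FS (box u R) f := mem_FS.2 ⟨hg', h⟩
    have h3 : (0 : ℝ) < (FS (box u R) f).card := Nat.cast_pos.2 (Finset.card_pos.2 ⟨g, h2⟩)
    have h4 : ((FS (box u R) f).card : ℝ) ≤ C := by
      rw [hC]; exact_mod_cast card_FS u R f
    have h5 : 1 ≤ ∑ a ∈ FS (box u R) f, φ a := by
      refine le_trans ?_ (Finset.single_le_sum (fun a _ => (ind_bd _ a).1) h2)
      rw [Set.indicator_of_mem (subset_toMeasurable μ B hg)]
    change C⁻¹ ≤ _ / _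
    rw [inv_eq_one_div]
    exact div_le_div₀ (zero_le_one.trans h5) h5 h3 h4
  · rw [← measure_toMeasurable B, ← ENNReal.toReal_le_toReal (measure_ne_top _ _)
      (ENNReal.mul_ne_top (by simp) (measure_ne_top _ _)), ENNReal.toReal_mul]
    simpa [hC, Measure.real] using h1

end Pool.Agent.MP_151d89_pr.H67
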