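import Pool.Agent.MP_151d89_pr.H33.DLR

/-!
Finite volume: uniform averages over fillings, monotonicity, positive association, and a bound
for the variance of increments.
-/

set_option autoImplicit false
open Finset
open scoped FinsetFamily

namespace Pool.Agent.MP_151d89_pr.H67
open Pool.Agent.MP_151d89_pr.H82 Pool.Agent.MP_151d89_pr.H33
open Classical

/-- configurations -/
abbrev Conf : Type := ℤ × ℤ → ℤ

/-- the graph distance -/
def dist1 (x y : ℤ × ℤ) : ℤ := |x.1 - y.1| + |x.2 - y.2|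

theorem par {a b : Conf} (ha : Hom a) (hb : Hom b) {z : ℤ × ℤ} (h : (a z - b z) % 2 = 0)
    (x : ℤ × ℤ) : (a x - b x) % 2 = 0 := by
  have h1 := (lip ha x z).2
  have h2 := (lip hb x z).2
  omega

theorem hom_inf {a b : Conf} (ha : Hom a) (hb : Hom b) {z : ℤ × ℤ} (h : (a z - b z) % 2 = 0) :
    Hom (a ⊓ b) := by
  intro x y hxy
  have h1 := ha x y hxy
  have h2 := hb x y hxy
  have h3 := par ha hb h x
  rw [abs_eq (by norm_num)] at h1 h2 ⊢
  simp only [Pi.inf_apply]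
  omega

theorem hom_sup {a b : Conf} (ha : Hom a) (hb : Hom b) {z : ℤ × ℤ} (h : (a z - b z) % 2 = 0) :
    Hom (a ⊔ b) := by
  intro x y hxy
  have h1 := ha x y hxy
  have h2 := hb x y hxy
  have h3 := par ha hb h x
  rw [abs_eq (by norm_num)] at h1 h2 ⊢
  simp only [Pi.sup_apply]
  omega

theorem fill_finite (Λ : Finset (ℤ × ℤ)) (g : Conf) : (Fill Λ g).Finite := by
  obtain ⟨z, hz⟩ := Infinite.exists_notMem_finset Λ
  refine Set.Finite.of_finite_image (f := fun (a : Conf) (x : Λ) => a x) ?_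
    fun a ha b hb h => DLR.fill_ext ha hb fun x hx => congrFun h ⟨x, hx⟩
  refine (Set.Finite.pi' fun x : Λ =>
    Set.finite_Icc (g z - dist1 x z) (g z + dist1 x z)).subset ?_
  rintro _ ⟨a, ha, rfl⟩ x
  have h1 := (lip ha.1 x z).1
  have h2 := (lip ha.1 z x).1
  rw [abs_sub_comm z.1, abs_sub_comm z.2] at h2
  rw [ha.2 z hz] at h1 h2
  simp only [dist1, Set.mem_Icc]
  omega

/-- the finite set of fillings -/
noncomputable def FS (Λ : Finset (ℤ × ℤ)) (g : Conf) : Finset Conf := (fill_finite Λ g).toFinset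

theorem mem_FS {Λ : Finset (ℤ × ℤ)} {g a : Conf} :
    a ∈ FS Λ g ↔ Hom a ∧ ∀ x, x ∉ Λ → a x = g x := by
  simp [FS, Fill]

theorem self_FS (Λ : Finset (ℤ × ℤ)) {g : Conf} (hg : Hom g) : g ∈ FS Λ g :=
  mem_FS.2 ⟨hg, fun _ _ => rfl⟩

theorem FS_congr {Λ : Finset (ℤ × ℤ)} {g g' : Conf} (h : ∀ x, x ∉ Λ → g x = g' x) :
    FS Λ g = FS Λ g' := by
  ext a
  simp only [mem_FS]
  exact and_congr_right fun _ => forall_congr' fun x => forall_congr' fun hx => by rw [h x hx]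

theorem card_pos (Λ : Finset (ℤ × ℤ)) {g : Conf} (hg : Hom g) : (0 : ℝ) < (FS Λ g).card :=
  Nat.cast_pos.2 (Finset.card_pos.2 ⟨g, self_FS Λ hg⟩)

/-- the average over fillings -/
noncomputable def av (Λ : Finset (ℤ × ℤ)) (φ : Conf → ℝ) (g : Conf) : ℝ :=
  (∑ a ∈ FS Λ g, φ a) / (FS Λ g).card

theorem av_congr {Λ : Finset (ℤ × ℤ)} (φ : Conf → ℝ) {g g' : Conf}
    (h : ∀ x, x ∉ Λ → g x = g' x) : av Λ φ g = av Λ φ g' := by
  unfold av; rw [FS_congr h]

theorem av_mul_card (Λ : Finset (ℤ × ℤ)) (φ : Conf → ℝ) {g : Conf} (hg : Hom g) :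
    ∑ a ∈ FS Λ g, φ a = (FS Λ g).card * av Λ φ g := by
  unfold av
  rw [mul_div_cancel₀ _ (card_pos Λ hg).ne']

theorem av_le {Λ : Finset (ℤ × ℤ)} {φ ψ : Conf → ℝ} {g : Conf}
    (h : ∀ a ∈ FS Λ g, φ a ≤ ψ a) : av Λ φ g ≤ av Λ ψ g :=
  div_le_div_of_nonneg_right (sum_le_sum h) (Nat.cast_nonneg _)

theorem av_eq {Λ : Finset (ℤ × ℤ)} {φ ψ : Conf → ℝ} {g : Conf}
    (h : ∀ a ∈ FS Λ g, φ a = ψ a) : av Λ φ g = av Λ ψ g := by
  unfold av; rw [sum_congr rfl h]

theorem av_const (Λ : Finset (ℤ × ℤ)) (c : ℝ) {g : Conf} (hg : Hom g) :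
    av Λ (fun _ => c) g = c := by
  unfold av
  rw [sum_const, nsmul_eq_mul, mul_div_cancel_left₀ _ (card_pos Λ hg).ne']

theorem av_add (Λ : Finset (ℤ × ℤ)) (φ ψ : Conf → ℝ) (g : Conf) :
    av Λ (fun a => φ a + ψ a) g = av Λ φ g + av Λ ψ g := by
  unfold av; rw [sum_add_distrib, add_div]

theorem av_smul (Λ : Finset (ℤ × ℤ)) (c : ℝ) (φ : Conf → ℝ) (g : Conf) :
    av Λ (fun a => c * φ a) g = c * av Λ φ g := by
  unfold av; rw [← mul_sum, mul_div_assoc]

theorem av_abs {Λ : Finset (ℤ × ℤ)} {φ : Conf → ℝ} {B : ℝ} (h : ∀ a, |φ a| ≤ B) (g : Conf) :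
    |av Λ φ g| ≤ B := by
  have hB : 0 ≤ B := (abs_nonneg _).trans (h 0)
  unfold av
  rcases Nat.eq_zero_or_pos (FS Λ g).card with h0 | h0
  · simpa [h0] using hB
  · have h1 : (0 : ℝ) < (FS Λ g).card := Nat.cast_pos.2 h0
    rw [abs_div, abs_of_pos h1, div_le_iff₀ h1]
    refine (abs_sum_le_sum_abs _ _).trans ((sum_le_sum fun a _ => h a).trans ?_)
    rw [sum_const, nsmul_eq_mul, mul_comm]

/-- the tower property -/
theorem tower {Λ Λ' : Finset (ℤ × ℤ)} (h : Λ' ⊆ Λ) (φ : Conf → ℝ) (g : Conf) :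
    ∑ f ∈ FS Λ g, av Λ' φ f = ∑ f ∈ FS Λ g, φ f := by
  have key : ∀ f ∈ FS Λ g, ∀ a ∈ FS Λ' f, a ∈ FS Λ g ∧ f ∈ FS Λ' a ∧ FS Λ' a = FS Λ' f := by
    intro f hf a ha
    rw [mem_FS] at hf ha
    exact ⟨mem_FS.2 ⟨ha.1, fun x hx => (ha.2 x fun h' => hx (h h')).trans (hf.2 x hx)⟩,
      mem_FS.2 ⟨hf.1, fun x hx => (ha.2 x hx).symm⟩, FS_congr ha.2⟩
  calc ∑ f ∈ FS Λ g, av Λ' φ f = ∑ f ∈ FS Λ g, ∑ a ∈ FS Λ' f, φ a / (FS Λ' a).card := by
        refine sum_congr rfl fun f hf => ?_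
        unfold av
        rw [sum_div]
        exact sum_congr rfl fun a ha => by rw [(key f hf a ha).2.2]
    _ = ∑ a ∈ FS Λ g, ∑ f ∈ FS Λ' a, φ a / (FS Λ' a).card := by
        refine sum_comm' fun f a => ⟨fun hh => ?_, fun hh => ?_⟩
        · exact ⟨(key f hh.1 a hh.2).2.1, (key f hh.1 a hh.2).1⟩
        · exact ⟨(key a hh.2 f hh.1).1, (key a hh.2 f hh.1).2.1⟩
    _ = _ := by
        refine sum_congr rfl fun a ha => ?_
        rw [sum_const, nsmul_eq_mul, mul_div_cancel₀ _ (card_pos Λ' (mem_FS.1 ha).1).ne']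

theorem av_tower {Λ Λ' : Finset (ℤ × ℤ)} (h : Λ' ⊆ Λ) (φ : Conf → ℝ) (g : Conf) :
    av Λ (av Λ' φ) g = av Λ φ g := by
  rw [av, tower h]; rfl

theorem infs_sups {Λ : Finset (ℤ × ℤ)} {a b : Conf} (ha : Hom a) (hb : Hom b) {z : ℤ × ℤ}
    (hz : (a z - b z) % 2 = 0) (h : ∀ x, x ∉ Λ → a x ≤ b x) :
    FS Λ a ⊼ FS Λ b ⊆ FS Λ a ∧ FS Λ a ⊻ FS Λ b ⊆ FS Λ b := by
  obtain ⟨w, hw⟩ := Infinite.exists_notMem_finset Λ
  have hp : ∀ u ∈ FS Λ a, ∀ v ∈ FS Λ b, (u w - v w) % 2 = 0 := fun u hu v hv => by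
    rw [(mem_FS.1 hu).2 w hw, (mem_FS.1 hv).2 w hw]
    exact par ha hb hz w
  constructor
  · intro c hc
    obtain ⟨u, hu, v, hv, rfl⟩ := mem_infs.1 hc
    refine mem_FS.2 ⟨hom_inf (mem_FS.1 hu).1 (mem_FS.1 hv).1 (hp u hu v hv), fun x hx => ?_⟩
    rw [Pi.inf_apply, (mem_FS.1 hu).2 x hx, (mem_FS.1 hv).2 x hx, inf_eq_left.2 (h x hx)]
  · intro c hc
    obtain ⟨u, hu, v, hv, rfl⟩ := mem_sups.1 hc
    refine mem_FS.2 ⟨hom_sup (mem_FS.1 hu).1 (mem_FS.1 hv).1 (hp u hu v hv), fun x hx => ?_⟩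
    rw [Pi.sup_apply, (mem_FS.1 hu).2 x hx, (mem_FS.1 hv).2 x hx, sup_eq_right.2 (h x hx)]

theorem av_mono0 {Λ : Finset (ℤ × ℤ)} {a b : Conf} (ha : Hom a) (hb : Hom b) {z : ℤ × ℤ}
    (hz : (a z - b z) % 2 = 0) (h : ∀ x, x ∉ Λ → a x ≤ b x) {φ : Conf → ℝ} (hφ : Monotone φ)
    (h0 : ∀ f, 0 ≤ φ f) : av Λ φ a ≤ av Λ φ b := by
  obtain ⟨h1, h2⟩ := infs_sups ha hb hz h
  have h3 := four_functions_theorem φ (fun _ => (1 : ℝ)) (fun _ => (1 : ℝ)) φ h0
    (fun _ => zero_le_one) (fun _ => zero_le_one) h0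
    (fun u v => by rw [mul_one, one_mul]; exact hφ le_sup_left) (FS Λ a) (FS Λ b)
  simp only [sum_const, nsmul_eq_mul, mul_one] at h3
  unfold av
  rw [div_le_div_iff₀ (card_pos Λ ha) (card_pos Λ hb), mul_comm _ ((FS Λ a).card : ℝ)]
  refine h3.trans (mul_le_mul (Nat.cast_le.2 (card_le_card h1))
    (sum_le_sum_of_subset_of_nonneg h2 fun f _ _ => h0 f) (sum_nonneg fun f _ => h0 f)
    (Nat.cast_nonneg _))

/-- monotonicity in the boundary condition -/
theorem av_mono {Λ : Finset (ℤ × ℤ)} {a b : Conf} (ha : Hom a) (hb : Hom b) {z : ℤ × ℤ}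
    (hz : (a z - b z) % 2 = 0) (h : ∀ x, x ∉ Λ → a x ≤ b x) {φ : Conf → ℝ} (hφ : Monotone φ) :
    av Λ φ a ≤ av Λ φ b := by
  obtain ⟨m, hm⟩ := ((FS Λ a ∪ FS Λ b).image φ).bddBelow
  have hm' : ∀ f ∈ FS Λ a ∪ FS Λ b, m ≤ φ f := fun f hf => hm (mem_coe.2 (mem_image_of_mem φ hf))
  have h1 := av_mono0 ha hb hz h (φ := fun f => max (φ f + -m) 0)
    (fun u v huv => max_le_max_right _ (add_le_add_left (hφ huv) _)) fun f => le_max_right _ _
  rw [av_eq (ψ := fun f => φ f + -m) fun f hf => max_eq_left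
      (by linarith [hm' f (mem_union_left _ hf)]),
    av_eq (g := b) (ψ := fun f => φ f + -m) fun f hf => max_eq_left
      (by linarith [hm' f (mem_union_right _ hf)]),
    av_add, av_add, av_const _ _ ha, av_const _ _ hb] at h1
  linarith

/-- positive association in finite volume -/
theorem av_fkg (Λ : Finset (ℤ × ℤ)) {g : Conf} (hg : Hom g) {φ ψ : Conf → ℝ} (hφ : Monotone φ)
    (hψ : Monotone ψ) (h0 : ∀ f, 0 ≤ φ f) (h0' : ∀ f, 0 ≤ ψ f) :
    av Λ φ g * av Λ ψ g ≤ av Λ (fun f => φ f * ψ f) g := by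
  obtain ⟨h1, h2⟩ := infs_sups (Λ := Λ) hg hg (z := 0) (by simp) fun _ _ => le_rfl
  have h3 := four_functions_theorem φ ψ (fun _ => (1 : ℝ)) (fun f => φ f * ψ f) h0 h0'
    (fun _ => zero_le_one) (fun f => mul_nonneg (h0 f) (h0' f))
    (fun u v => by
      rw [one_mul]
      exact mul_le_mul (hφ le_sup_left) (hψ le_sup_right) (h0' _) (h0 _)) (FS Λ g) (FS Λ g)
  simp only [sum_const, nsmul_eq_mul, mul_one] at h3
  have hp := card_pos Λ hg
  have h4 : (∑ a ∈ FS Λ g, φ a) * ∑ a ∈ FS Λ g, ψ a ≤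
      (FS Λ g).card * ∑ a ∈ FS Λ g, φ a * ψ a :=
    h3.trans (mul_le_mul (Nat.cast_le.2 (card_le_card h1))
      (sum_le_sum_of_subset_of_nonneg h2 fun f _ _ => mul_nonneg (h0 f) (h0' f))
      (sum_nonneg fun f _ => mul_nonneg (h0 f) (h0' f)) (Nat.cast_nonneg _))
  rw [av_mul_card Λ φ hg, av_mul_card Λ ψ hg, av_mul_card Λ _ hg] at h4
  have h5 : ((FS Λ g).card : ℝ) ^ 2 * (av Λ φ g * av Λ ψ g) ≤
      ((FS Λ g).card : ℝ) ^ 2 * av Λ (fun f => φ f * ψ f) g := by nlinarith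
  exact le_of_mul_le_mul_left h5 (by positivity)

theorem hom_shift {a : Conf} (ha : Hom a) (k : ℤ) : Hom fun x => a x + k := fun x y h => by
  simpa using ha x y h

theorem av_shift (Λ : Finset (ℤ × ℤ)) {a : Conf} (ha : Hom a) (k : ℤ) (x : ℤ × ℤ) :
    av Λ (fun f => (f x : ℝ)) (fun y => a y + k) = av Λ (fun f => (f x : ℝ)) a + k := by
  have hi : Function.Injective fun (f : Conf) (y : ℤ × ℤ) => f y + k := fun f f' h =>
    funext fun y => add_right_cancel (congrFun h y)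
  have e : FS Λ (fun y => a y + k) = (FS Λ a).image fun f y => f y + k := by
    ext f
    rw [mem_image, mem_FS]
    constructor
    · intro hf
      exact ⟨fun y => f y + -k, mem_FS.2 ⟨hom_shift hf.1 _, fun y hy => by
        rw [hf.2 y hy]; ring⟩, funext fun y => by ring⟩
    · rintro ⟨f, hf, rfl⟩
      exact ⟨hom_shift (mem_FS.1 hf).1 _, fun y hy => by
        simp only [(mem_FS.1 hf).2 y hy]⟩
  rw [← av_const Λ (k : ℝ) ha, ← av_add, av, e, card_image_of_injective _ hi,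
    sum_image fun _ _ _ _ h => hi h]
  simp only [Int.cast_add]
  rfl

/-- the conditional mean given one more value is monotone and Lipschitz in that value -/
theorem av_lip {Λ : Finset (ℤ × ℤ)} {g a b : Conf} (ha : a ∈ FS Λ g) (hb : b ∈ FS Λ g)
    (z x : ℤ × ℤ) (h : a z ≤ b z) :
    av (Λ.erase z) (fun f => (f x : ℝ)) a ≤ av (Λ.erase z) (fun f => (f x : ℝ)) b ∧
      av (Λ.erase z) (fun f => (f x : ℝ)) b ≤
        av (Λ.erase z) (fun f => (f x : ℝ)) a + ((b z : ℝ) - a z) := by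
  obtain ⟨w, hw⟩ := Infinite.exists_notMem_finset Λ
  rw [mem_FS] at ha hb
  have hw' : (a w - b w) % 2 = 0 := by rw [ha.2 w hw, hb.2 w hw]; simp
  have hz := par ha.1 hb.1 hw' z
  have hm : Monotone fun f : Conf => (f x : ℝ) := fun u v huv => Int.cast_le.2 (huv x)
  have hout : ∀ y, y ∉ Λ.erase z → y = z ∨ a y = b y := fun y hy => by
    by_cases e : y = z
    · exact Or.inl e
    · have : y ∉ Λ := fun h' => hy (mem_erase.2 ⟨e, h'⟩)
      exact Or.inr ((ha.2 y this).trans (hb.2 y this).symm)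
  constructor
  · refine av_mono ha.1 hb.1 hz (fun y hy => ?_) hm
    rcases hout y hy with rfl | e
    · exact h
    · exact e.le
  · rw [← Int.cast_sub, ← av_shift _ ha.1]
    refine av_mono hb.1 (hom_shift ha.1 _) (z := z) (by simp) (fun y hy => ?_) hm
    rcases hout y hy with rfl | e
    · omega
    · omega

theorem av_sq (Λ : Finset (ℤ × ℤ)) (φ : Conf → ℝ) (c : ℝ) {g : Conf} (hg : Hom g) :
    av Λ (fun f => (φ f - c) ^ 2) g =
      av Λ (fun f => (φ f - av Λ φ g) ^ 2) g + (av Λ φ g - c) ^ 2 := by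
  have e : ∀ d : ℝ, av Λ (fun f => (φ f - d) ^ 2) g =
      av Λ (fun f => φ f ^ 2) g + (-2 * d) * av Λ φ g + d ^ 2 := fun d => by
    rw [← av_smul, ← av_add, ← av_const Λ (d ^ 2) hg, ← av_add]
    exact av_eq fun f _ => by ring
  rw [e, e]; ring

theorem step {z x : ℤ × ℤ} {r : ℕ} (h : dist1 z x = r + 1) :
    ∃ w : ℤ × ℤ, |w.1 - z.1| + |w.2 - z.2| = 1 ∧ dist1 w x = r := by
  unfold dist1 at h ⊢
  rcases lt_trichotomy z.1 x.1 with h1 | h1 | h1
  · refine ⟨(z.1 + 1, z.2), by simp, ?_⟩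
    rw [abs_of_nonpos (by omega)] at h ⊢
    simp only; omega
  · rcases lt_trichotomy z.2 x.2 with h2 | h2 | h2
    · refine ⟨(z.1, z.2 + 1), by simp, ?_⟩
      simp only
      rw [abs_of_nonpos (a := z.2 - x.2) (by omega)] at h
      rw [abs_of_nonpos (a := z.2 + 1 - x.2) (by omega)]
      omega
    · rw [h1, h2] at h
      simp at h
      omega
    · refine ⟨(z.1, z.2 - 1), by simp, ?_⟩
      simp only
      rw [abs_of_nonneg (a := z.2 - x.2) (by omega)] at h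
      rw [abs_of_nonneg (a := z.2 - 1 - x.2) (by omega)]
      omega
  · refine ⟨(z.1 - 1, z.2), by simp, ?_⟩
    rw [abs_of_nonneg (by omega)] at h ⊢
    simp only; omega

/-- the variance at distance `r` from a fixed site is at most `r` -/
theorem var_pin (x : ℤ × ℤ) (r : ℕ) : ∀ (Λ : Finset (ℤ × ℤ)) (g : Conf) (z : ℤ × ℤ), Hom g →
    z ∉ Λ → dist1 z x = r →
      av Λ (fun f => ((f x : ℝ) - av Λ (fun f => (f x : ℝ)) g) ^ 2) g ≤ r := by
  induction r with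
  | zero =>
    intro Λ g z hg hz h
    have e : z = x := by
      unfold dist1 at h
      have h1 := abs_nonneg (z.1 - x.1)
      have h2 := abs_nonneg (z.2 - x.2)
      have h3 : |z.1 - x.1| = 0 := by omega
      have h4 : |z.2 - x.2| = 0 := by omega
      rw [abs_eq_zero] at h3 h4
      exact Prod.ext (by omega) (by omega)
    subst e
    have e1 : av Λ (fun f => (f z : ℝ)) g = g z := by
      rw [← av_const Λ (g z : ℝ) hg]
      exact av_eq fun f hf => by rw [(mem_FS.1 hf).2 z hz]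
    rw [e1, Nat.cast_zero, ← av_const Λ 0 hg]
    exact av_le fun f hf => by rw [(mem_FS.1 hf).2 z hz]; simp
  | succ r ih =>
    intro Λ g z hg hz h
    obtain ⟨w, hw, hd⟩ := step (r := r) (by rw [h]; push_cast; ring)
    obtain ⟨f0, hf0, hmin⟩ := exists_min_image (FS Λ g)
      (av (Λ.erase w) fun f => (f x : ℝ)) ⟨g, self_FS Λ hg⟩
    set c := av (Λ.erase w) (fun f => (f x : ℝ)) f0 + 1 with hc
    have h1 := av_sq Λ (fun f => (f x : ℝ)) c hg
    have h2 : av Λ (fun f => ((f x : ℝ) - c) ^ 2) g ≤ r + 1 := by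
      rw [← av_tower (erase_subset w Λ), ← av_const Λ ((r : ℝ) + 1) hg]
      refine av_le fun f hf => ?_
      have hf' := mem_FS.1 hf
      rw [av_sq _ _ _ hf'.1]
      refine add_le_add (ih _ f w hf'.1 (notMem_erase w Λ) hd) ?_
      have h3 := hmin f hf
      have h4 : av (Λ.erase w) (fun f => (f x : ℝ)) f ≤
          av (Λ.erase w) (fun f => (f x : ℝ)) f0 + 2 := by
        rcases le_total (f w) (f0 w) with h5 | h5
        · linarith [(av_lip hf hf0 w x h5).1]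
        · have h6 := hf'.1 w z hw
          have h7 := (mem_FS.1 hf0).1 w z hw
          rw [hf'.2 z hz, abs_eq (by norm_num)] at h6
          rw [(mem_FS.1 hf0).2 z hz, abs_eq (by norm_num)] at h7
          have h8 : f w - f0 w ≤ 2 := by omega
          have h9 : (f w : ℝ) - f0 w ≤ 2 := by exact_mod_cast h8
          linarith [(av_lip hf0 hf w x h5).2]
      nlinarith
    push_cast
    nlinarith [sq_nonneg (av Λ (fun f => (f x : ℝ)) g - c)]

theorem cheb_sum {s : Finset Conf} {U V : Conf → ℝ}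
    (h : ∀ a ∈ s, ∀ b ∈ s, 0 ≤ (U a - U b) * (V a - V b)) :
    (∑ a ∈ s, U a) * ∑ a ∈ s, V a ≤ s.card * ∑ a ∈ s, U a * V a := by
  have h1 : 0 ≤ ∑ a ∈ s, ∑ b ∈ s, (U a - U b) * (V a - V b) :=
    sum_nonneg fun a ha => sum_nonneg fun b hb => h a ha b hb
  have h2 : ∀ a, ∑ b ∈ s, (U a - U b) * (V a - V b) =
      s.card * (U a * V a) - U a * ∑ b ∈ s, V b - V a * ∑ b ∈ s, U b + ∑ b ∈ s, U b * V b := by
    intro a
    rw [mul_sum, mul_sum, ← nsmul_eq_mul, ← sum_const, ← sum_sub_distrib, ← sum_sub_distrib,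
      ← sum_add_distrib]
    exact sum_congr rfl fun b _ => by ring
  simp only [h2, sum_add_distrib, sum_sub_distrib, ← mul_sum, ← sum_mul, sum_const,
    nsmul_eq_mul] at h1
  linarith

theorem cov_ge (Λ : Finset (ℤ × ℤ)) {g : Conf} (hg : Hom g) (x y : ℤ × ℤ) (r : ℕ)
    (h : dist1 y x = r) :
    av Λ (fun f => (f x : ℝ) ^ 2) g - av Λ (fun f => (f x : ℝ)) g ^ 2 - r ≤
      av Λ (fun f => (f y : ℝ) * f x) g -
        av Λ (fun f => (f y : ℝ)) g * av Λ (fun f => (f x : ℝ)) g := by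
  set G := av (Λ.erase y) fun f => (f x : ℝ) with hG
  have hs := erase_subset y Λ
  have e1 : av Λ G g = av Λ (fun f => (f x : ℝ)) g := av_tower hs _ g
  have e2 : av Λ (fun f => (f y : ℝ) * G f) g = av Λ (fun f => (f y : ℝ) * f x) g := by
    rw [← av_tower hs (fun f => (f y : ℝ) * f x)]
    refine av_eq fun f _ => ?_
    rw [hG, ← av_smul]
    exact av_eq fun a ha => by rw [(mem_FS.1 ha).2 y (notMem_erase y Λ)]
  have e3 : av Λ (fun f => (f x : ℝ) ^ 2) g ≤ r + av Λ (fun f => G f * G f) g := by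
    rw [← av_tower hs (fun f => (f x : ℝ) ^ 2), ← av_const Λ (r : ℝ) hg, ← av_add]
    refine av_le fun f hf => ?_
    have hf' := (mem_FS.1 hf).1
    have h1 := av_sq (Λ.erase y) (fun f => (f x : ℝ)) 0 hf'
    simp only [sub_zero] at h1
    rw [h1, sq (av _ _ f)]
    exact add_le_add (var_pin x r _ f y hf' (notMem_erase y Λ) h) le_rfl
  have e4 := cheb_sum (s := FS Λ g) (U := fun f => (f y : ℝ) + -1 * G f) (V := G)
    fun a ha b hb => by
      rcases le_total (a y) (b y) with h1 | h1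
      · obtain ⟨h2, h3⟩ := av_lip ha hb y x h1
        exact mul_nonneg_of_nonpos_of_nonpos (by linarith) (by linarith)
      · obtain ⟨h2, h3⟩ := av_lip hb ha y x h1
        exact mul_nonneg (by linarith) (by linarith)
  rw [av_mul_card Λ _ hg, av_mul_card Λ _ hg, av_mul_card Λ _ hg, av_add, av_smul,
    av_eq (φ := fun f => ((f y : ℝ) + -1 * G f) * G f)
      (ψ := fun f => (f y : ℝ) * G f + -1 * (G f * G f)) fun f _ => by ring,
    av_add, av_smul, e1, e2] at e4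
  have hp := card_pos Λ hg
  have h5 : ((FS Λ g).card : ℝ) ^ 2 * ((av Λ (fun f => (f y : ℝ)) g + -1 * av Λ (fun f => (f x : ℝ)) g) *
      av Λ (fun f => (f x : ℝ)) g) ≤ ((FS Λ g).card : ℝ) ^ 2 *
        (av Λ (fun f => (f y : ℝ) * f x) g + -1 * av Λ (fun f => G f * G f) g) := by nlinarith
  have h6 := le_of_mul_le_mul_left h5 (by positivity)
  nlinarith

/-- the variance of an increment in finite volume -/
theorem av_var (Λ : Finset (ℤ × ℤ)) {g : Conf} (hg : Hom g) (x y : ℤ × ℤ) :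
    av Λ (fun f => ((f x : ℝ) - f y) ^ 2) g ≤
      av Λ (fun f => (f x : ℝ) - f y) g ^ 2 + 2 * dist1 x y := by
  have h0 : 0 ≤ dist1 x y := add_nonneg (abs_nonneg _) (abs_nonneg _)
  obtain ⟨r, hr⟩ := Int.eq_ofNat_of_zero_le h0
  have hr' : dist1 y x = r := by
    rw [← hr, dist1, dist1, abs_sub_comm y.1, abs_sub_comm y.2]
  have h1 := cov_ge Λ hg x y r hr'
  have h2 := cov_ge Λ hg y x r hr
  rw [av_eq (φ := fun f => (f x : ℝ) * f y) (ψ := fun f => (f y : ℝ) * f x)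
    fun f _ => mul_comm _ _] at h2
  rw [av_eq (ψ := fun f => (f x : ℝ) ^ 2 + (f y : ℝ) ^ 2 + -2 * ((f y : ℝ) * f x))
      fun f _ => by ring, av_add, av_add, av_smul,
    av_eq (φ := fun f => (f x : ℝ) - f y) (ψ := fun f => (f x : ℝ) + -1 * f y)
      fun f _ => by ring, av_add, av_smul, hr]
  push_cast
  nlinarith

end Pool.Agent.MP_151d89_pr.H67
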